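import Pool.Agent.H6.N4D.TA

/-!
# PWP: the pointwise inequality
-/

set_option autoImplicit false

open Finset

namespace Pool.Agent.H17.N4D

open Pool.Agent.H6.N4D

theorem cos_int (ξ : ℝ) (k m : ℤ) :
    Real.cos (2 * Real.pi * (ξ - k) * m) = Real.cos (2 * Real.pi * ξ * m) := by
  have e : 2 * Real.pi * (ξ - k) * m = 2 * Real.pi * ξ * m - ((k * m : ℤ) : ℝ) * (2 * Real.pi) := by
    push_cast
    ring
  rw [e, Real.cos_sub_int_mul_two_pi]

theorem cos_lip (x y : ℝ) : |Real.cos x - Real.cos y| ≤ |x - y| := by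
  have h : Real.cos x - Real.cos y = -2 * Real.sin ((x + y) / 2) * Real.sin ((x - y) / 2) :=
    Real.cos_sub_cos x y
  have h1 : |Real.sin ((x + y) / 2)| ≤ 1 := Real.abs_sin_le_one _
  have h2 : |Real.sin ((x - y) / 2)| ≤ |(x - y) / 2| := Real.abs_sin_le_abs
  rw [h, abs_mul, abs_mul]
  have h3 : |(-2 : ℝ)| = 2 := by norm_num
  have h4 : |(x - y) / 2| = |x - y| / 2 := by rw [abs_div, abs_two]
  rw [h3]
  rw [h4] at h2
  have h5 := abs_nonneg (Real.sin ((x - y) / 2))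
  nlinarith [abs_nonneg (Real.sin ((x + y) / 2))]

theorem pr_sub {A B C : ℝ} (hBC : B ≤ C) : Pr A B ⊆ Pr A C := by
  unfold Pr
  refine filter_subset_filter _ ?_
  refine Ioc_subset_Ioc_right ?_
  exact Nat.floor_le_floor hBC

theorem pf_PWP (hWTS : T_WTS) (hAVG : T_AVG) (hSIZ : T_SIZ) : T_PWP := by
  intro B c X₁ hGap
  obtain ⟨hc, hB, hgap⟩ := hGap
  obtain ⟨⟨Y₁, hY₁⟩, hW2, -⟩ := hWTS
  obtain ⟨Y₂, hY₂⟩ := hW2 B (by omega)
  obtain ⟨Y₃, hY₃⟩ := hSIZ
  refine ⟨20 + 4 / c, max (max (max X₁ Y₁) (max Y₂ Y₃)) (max 13 (B / c)), by positivity, ?_⟩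
  intro S hS hX v hv ξ₀
  have hX1 : X₁ ≤ S.X := le_trans (le_trans (le_trans (le_max_left _ _) (le_max_left _ _))
    (le_max_left _ _)) hX
  have hXY1 : Y₁ ≤ S.X := le_trans (le_trans (le_trans (le_max_right _ _) (le_max_left _ _))
    (le_max_left _ _)) hX
  have hXY2 : Y₂ ≤ S.X := le_trans (le_trans (le_trans (le_max_left _ _) (le_max_right _ _))
    (le_max_left _ _)) hX
  have hXY3 : Y₃ ≤ S.X := le_trans (le_trans (le_trans (le_max_right _ _) (le_max_right _ _))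
    (le_max_left _ _)) hX
  have hX13 : 13 ≤ S.X := le_trans (le_trans (le_max_left _ _) (le_max_right _ _)) hX
  have hXB : B / c ≤ S.X := le_trans (le_trans (le_max_right _ _) (le_max_right _ _)) hX
  obtain ⟨hL1, hP100, hrX, hr100, hh4, hVh, -, hV1, -, hlp, -, -, -⟩ := hY₃ S hS hXY3
  have hw1 := hY₁ S.X hXY1
  have hw2 := hY₂ S.X hXY2
  have hh := hS.hh
  have hX5 := hS.hX5
  have hX0 : 0 < S.X := by linarith
  -- reduction to a small frequency
  suffices key : ∀ ξ : ℝ, |ξ| ≤ 1 / 2 → 1 - Real.cos (2 * Real.pi * ξ * v) ≤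
      (20 + 4 / c) *
        ∑ p ∈ Pr S.P (S.P ^ B), 1 / (p : ℝ) * (1 - Real.cos (2 * Real.pi * ξ * S.l p)) +
      4 / (S.V : ℝ) * ∑ w ∈ Icc 1 S.V, (1 - Real.cos (2 * Real.pi * ξ * w)) by
    have h := key (ξ₀ - round ξ₀) (abs_sub_round ξ₀)
    rw [cos_int] at h
    have e1 : ∀ p, Real.cos (2 * Real.pi * (ξ₀ - round ξ₀) * S.l p) =
        Real.cos (2 * Real.pi * ξ₀ * S.l p) := fun p => cos_int _ _ _
    have e2 : ∀ w : ℕ, Real.cos (2 * Real.pi * (ξ₀ - round ξ₀) * w) =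
        Real.cos (2 * Real.pi * ξ₀ * w) := by
      intro w
      have := cos_int ξ₀ (round ξ₀) (w : ℤ)
      simpa using this
    simp only [e1, e2] at h
    exact h
  intro ξ hξ
  have hcos : ∀ y : ℝ, 0 ≤ 1 - Real.cos y := fun y => by linarith [Real.cos_le_one y]
  have hLHS : 1 - Real.cos (2 * Real.pi * ξ * v) ≤ 2 := by
    linarith [Real.neg_one_le_cos (2 * Real.pi * ξ * v)]
  have hV0 : (0 : ℝ) < S.V := by
    have : (1 : ℝ) ≤ S.V := by exact_mod_cast hV1
    linarith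
  have hT2 : 0 ≤ 4 / (S.V : ℝ) * ∑ w ∈ Icc 1 S.V, (1 - Real.cos (2 * Real.pi * ξ * w)) :=
    mul_nonneg (by positivity) (sum_nonneg fun w _ => hcos _)
  have hT1 : 0 ≤ ∑ p ∈ Pr S.P (S.P ^ B),
      1 / (p : ℝ) * (1 - Real.cos (2 * Real.pi * ξ * S.l p)) :=
    sum_nonneg fun p _ => mul_nonneg (by positivity) (hcos _)
  obtain ⟨u, hu⟩ : ∃ u : ℝ, u = 2 * Real.pi * ξ / S.h := ⟨_, rfl⟩
  have huh : ∀ m : ℤ, 2 * Real.pi * ξ * m = u * (S.h * m) := by
    intro m
    rw [hu]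
    field_simp
  have hpi := Real.pi_gt_three
  have hpi2 : Real.pi < 3.15 := Real.pi_lt_d2
  have hh1 : S.h ≤ 1 / 100 := by
    have h1 : S.rho ^ 4 ≤ S.rho := by
      have h0 := hS.hr0
      calc S.rho ^ 4 ≤ S.rho ^ 1 := pow_le_pow_of_le_one h0.le (by linarith) (by norm_num)
        _ = S.rho := pow_one _
    linarith
  rcases le_or_gt |u| (1 / S.L) with hA | hA
  · -- small frequencies
    have hL0 : 0 < S.L := by linarith
    have huL : |u| * S.L ≤ 1 := by
      rwa [le_div_iff₀ hL0] at hA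
    have h1 : 1 - Real.cos (2 * Real.pi * ξ * v) ≤ u ^ 2 * S.L ^ 2 / 2 := by
      have h2 := Real.one_sub_sq_div_two_le_cos (x := 2 * Real.pi * ξ * v)
      have h3 : (2 * Real.pi * ξ * v) ^ 2 ≤ u ^ 2 * S.L ^ 2 := by
        rw [huh v, mul_pow]
        refine mul_le_mul_of_nonneg_left ?_ (sq_nonneg _)
        have h4 : |S.h * (v : ℝ)| ≤ S.L := by
          rw [abs_mul, abs_of_pos hh, mul_comm]
          exact hv
        rw [← sq_abs]
        exact pow_le_pow_left₀ (abs_nonneg _) h4 2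
      linarith
    have hP1 : 1 ≤ S.P := by linarith
    have hsub : Pr S.P (S.P ^ 2) ⊆ Pr S.P (S.P ^ B) :=
      pr_sub (pow_le_pow_right₀ hP1 hB)
    have hP2 : (0 : ℝ) ≤ S.P ^ 2 := by positivity
    have h5 : ∀ p ∈ Pr S.P (S.P ^ 2), 1 / (p : ℝ) * (1 / 5 * (u ^ 2 * (S.L * (99 / 100)) ^ 2)) ≤
        1 / (p : ℝ) * (1 - Real.cos (2 * Real.pi * ξ * S.l p)) := by
      intro p hp
      obtain ⟨hp1, hp2, hpp⟩ := (mem_Pr hP2).1 hp
      refine mul_le_mul_of_nonneg_left ?_ (by positivity)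
      have hp0 : (0 : ℝ) < p := by linarith
      have h6 := abs_le.1 (hlp p hpp.one_le)
      have h7 : S.L ≤ Real.log p := by
        rw [← Par.log_P]
        exact Real.log_le_log (by linarith) hp1.le
      have h8 : Real.log p ≤ 2 * S.L := by
        have := Real.log_le_log hp0 hp2
        rw [Real.log_pow, Par.log_P] at this
        push_cast at this
        exact this
      have h9 : S.L * (99 / 100) ≤ S.h * S.l p := by nlinarith [h6.1, h6.2]
      have h10 : S.h * S.l p ≤ 3 * S.L := by linarith [h6.1, h6.2]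
      have h11 : 0 ≤ S.h * S.l p := le_trans (by positivity) h9
      rw [huh]
      have h12 : |u * (S.h * S.l p)| ≤ Real.pi := by
        rw [abs_mul, abs_of_nonneg h11]
        have : |u| * (S.h * S.l p) ≤ |u| * (3 * S.L) :=
          mul_le_mul_of_nonneg_left h10 (abs_nonneg _)
        linarith
      have h13 := Real.cos_le_one_sub_mul_cos_sq h12
      have h14 : (1 / 5 : ℝ) ≤ 2 / Real.pi ^ 2 := by
        rw [div_le_div_iff₀ (by norm_num) (by positivity)]
        nlinarith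
      have h15 : (S.L * (99 / 100)) ^ 2 ≤ (S.h * S.l p) ^ 2 :=
        pow_le_pow_left₀ (by positivity) h9 2
      have h16 : 1 / 5 * (u ^ 2 * (S.L * (99 / 100)) ^ 2) ≤
          2 / Real.pi ^ 2 * (u * (S.h * S.l p)) ^ 2 := by
        have e : (u * (S.h * S.l p)) ^ 2 = u ^ 2 * (S.h * S.l p) ^ 2 := by ring
        rw [e]
        exact mul_le_mul h14 (mul_le_mul_of_nonneg_left h15 (sq_nonneg _)) (by positivity)
          (by positivity)
      linarith
    have h17 : (1 / 4) * (1 / 5 * (u ^ 2 * (S.L * (99 / 100)) ^ 2)) ≤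
        ∑ p ∈ Pr S.P (S.P ^ B), 1 / (p : ℝ) * (1 - Real.cos (2 * Real.pi * ξ * S.l p)) := by
      calc (1 / 4) * (1 / 5 * (u ^ 2 * (S.L * (99 / 100)) ^ 2))
          ≤ (∑ p ∈ Pr S.P (S.P ^ 2), 1 / (p : ℝ)) *
            (1 / 5 * (u ^ 2 * (S.L * (99 / 100)) ^ 2)) :=
            mul_le_mul_of_nonneg_right hw1 (by positivity)
        _ = ∑ p ∈ Pr S.P (S.P ^ 2),
            1 / (p : ℝ) * (1 / 5 * (u ^ 2 * (S.L * (99 / 100)) ^ 2)) := by rw [sum_mul]
        _ ≤ ∑ p ∈ Pr S.P (S.P ^ 2),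
            1 / (p : ℝ) * (1 - Real.cos (2 * Real.pi * ξ * S.l p)) := sum_le_sum h5
        _ ≤ _ := sum_le_sum_of_subset_of_nonneg hsub
            fun p _ _ => mul_nonneg (by positivity) (hcos _)
    have h18 : 0 ≤ 4 / c * ∑ p ∈ Pr S.P (S.P ^ B),
        1 / (p : ℝ) * (1 - Real.cos (2 * Real.pi * ξ * S.l p)) :=
      mul_nonneg (by positivity) hT1
    nlinarith [mul_nonneg (sq_nonneg u) (sq_nonneg S.L)]
  rcases le_or_gt |u| (S.X ^ 3) with hB' | hC
  · -- middle frequencies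
    have h1 := (hgap S.X u hX1 hA.le hB').1
    have h2 : ∀ p ∈ Pr S.P (S.P ^ B),
        1 / (p : ℝ) * (1 - Real.cos (u * Real.log p)) ≤
        1 / (p : ℝ) * (1 - Real.cos (2 * Real.pi * ξ * S.l p)) +
          1 / (p : ℝ) * (S.X ^ 3 * S.h / 2) := by
      intro p hp
      have hp' : p ∈ (Ioc ⌊S.P⌋₊ ⌊S.P ^ B⌋₊).filter Nat.Prime := hp
      have hpp : p.Prime := (mem_filter.1 hp').2
      rw [← mul_add]
      refine mul_le_mul_of_nonneg_left ?_ (by positivity)
      have h3 := cos_lip (2 * Real.pi * ξ * S.l p) (u * Real.log p)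
      rw [huh, ← mul_sub, abs_mul] at h3
      have h4 := hlp p hpp.one_le
      have h5 : |u| * |S.h * S.l p - Real.log p| ≤ S.X ^ 3 * (S.h / 2) :=
        mul_le_mul hB' h4 (abs_nonneg _) (by positivity)
      have h6 := (abs_le.1 (h3.trans h5)).2
      rw [huh]
      linarith
    have h3 : c ≤ ∑ p ∈ Pr S.P (S.P ^ B),
        1 / (p : ℝ) * (1 - Real.cos (2 * Real.pi * ξ * S.l p)) +
        (∑ p ∈ Pr S.P (S.P ^ B), 1 / (p : ℝ)) * (S.X ^ 3 * S.h / 2) := by
      rw [sum_mul, ← sum_add_distrib]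
      exact h1.trans (sum_le_sum h2)
    have h4 : (∑ p ∈ Pr S.P (S.P ^ B), 1 / (p : ℝ)) * (S.X ^ 3 * S.h / 2) ≤ c / 2 := by
      have h5 : (∑ p ∈ Pr S.P (S.P ^ B), 1 / (p : ℝ)) ≤ B := hw2
      have h6 : S.X ^ 3 * S.h ≤ c / B * 1 := by
        have hB0 : (0 : ℝ) < B := by
          have : (2 : ℝ) ≤ B := by exact_mod_cast hB
          linarith
        have h7 : B ≤ S.X * c := by rwa [div_le_iff₀ hc] at hXB
        have h8 : S.X * (S.X ^ 3 * S.h) ≤ 1 := by
          have h9 : S.X * (S.X ^ 3 * S.h) ≤ S.h * S.X ^ 5 := by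
            have : S.h * S.X ^ 5 = S.X * (S.X * (S.X ^ 3 * S.h)) := by ring
            rw [this]
            have h10 : 0 ≤ S.X * (S.X ^ 3 * S.h) := by positivity
            nlinarith
          linarith
        rw [mul_one, le_div_iff₀ hB0]
        calc S.X ^ 3 * S.h * B ≤ S.X ^ 3 * S.h * (S.X * c) :=
              mul_le_mul_of_nonneg_left h7 (by positivity)
          _ = (S.X * (S.X ^ 3 * S.h)) * c := by ring
          _ ≤ 1 * c := mul_le_mul_of_nonneg_right h8 hc.le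
          _ = c := one_mul c
      have hB0 : (0 : ℝ) < B := by
        have : (2 : ℝ) ≤ B := by exact_mod_cast hB
        linarith
      calc (∑ p ∈ Pr S.P (S.P ^ B), 1 / (p : ℝ)) * (S.X ^ 3 * S.h / 2)
          ≤ B * (S.X ^ 3 * S.h / 2) := mul_le_mul_of_nonneg_right h5 (by positivity)
        _ ≤ B * (c / B * 1 / 2) := by
            refine mul_le_mul_of_nonneg_left ?_ hB0.le
            linarith
        _ = c / 2 := by field_simp
    have h5 : c / 2 ≤ ∑ p ∈ Pr S.P (S.P ^ B),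
        1 / (p : ℝ) * (1 - Real.cos (2 * Real.pi * ξ * S.l p)) := by linarith
    have h6 : 2 ≤ 4 / c * ∑ p ∈ Pr S.P (S.P ^ B),
        1 / (p : ℝ) * (1 - Real.cos (2 * Real.pi * ξ * S.l p)) := by
      calc (2 : ℝ) = 4 / c * (c / 2) := by field_simp; norm_num
        _ ≤ _ := mul_le_mul_of_nonneg_left h5 (by positivity)
    linarith
  · -- large frequencies
    have h1 : 1 ≤ S.V * |ξ| := by
      have hr0 := hS.hr0
      have h2 : |ξ| = |u| * S.h / (2 * Real.pi) := by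
        have e : ξ = u * S.h / (2 * Real.pi) := by
          rw [hu]
          field_simp
        rw [e, abs_div, abs_mul, abs_of_pos hh, abs_of_pos (by positivity : 0 < 2 * Real.pi)]
      have h3 : 1 / S.X ^ 2 ≤ S.rho ^ 2 := by
        have : (1 / S.X) ^ 2 ≤ S.rho ^ 2 := pow_le_pow_left₀ (by positivity) hrX 2
        calc 1 / S.X ^ 2 = (1 / S.X) ^ 2 := by rw [div_pow, one_pow]
          _ ≤ _ := this
      have h4 : 1 / (2 * S.X ^ 2) ≤ S.V * S.h := by
        have : 1 / (2 * S.X ^ 2) = 1 / S.X ^ 2 / 2 := by field_simp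
        rw [this]
        linarith
      rw [h2, mul_div_assoc', le_div_iff₀ (by positivity), one_mul]
      have h5 : S.V * (|u| * S.h) = |u| * (S.V * S.h) := by ring
      rw [h5]
      calc 2 * Real.pi ≤ S.X / 2 := by linarith
        _ = S.X ^ 3 * (1 / (2 * S.X ^ 2)) := by field_simp
        _ ≤ |u| * (S.V * S.h) := mul_le_mul hC.le h4 (by positivity) (abs_nonneg _)
    have h6 := hAVG S.V ξ hV1 hξ h1
    have h7 : 4 / (S.V : ℝ) * ∑ w ∈ Icc 1 S.V, (1 - Real.cos (2 * Real.pi * ξ * w)) =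
        4 * (1 / (S.V : ℝ) * ∑ w ∈ Icc 1 S.V, (1 - Real.cos (2 * Real.pi * ξ * w))) := by
      ring
    have h8 : 0 ≤ (20 + 4 / c) * ∑ p ∈ Pr S.P (S.P ^ B),
        1 / (p : ℝ) * (1 - Real.cos (2 * Real.pi * ξ * S.l p)) :=
      mul_nonneg (by positivity) hT1
    rw [h7]
    linarith

end Pool.Agent.H17.N4D
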